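import Pool.Agent.N303.KT.Stm

/-!
# KT/B: Theorem B from Theorem A (project KT of helper303)
-/

set_option autoImplicit false
set_option linter.all false

namespace Pool.Agent.N769.KT

open Finset
open Pool.Agent.N303.KT Pool.Agent.N303.KS

section grp

variable {Q : Type} [Group Q] [Finite Q] {p : ℕ}

/-- the exponent of `p` in the order -/
noncomputable def w (p : ℕ) (a : Q) : ℕ := (orderOf a).factorization p

theorem w_one : w p (1 : Q) = 0 := by simp [w]

theorem w_inv (a : Q) : w p a⁻¹ = w p a := by rw [w, orderOf_inv, w]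

theorem w_mul_le {a b : Q} (h : Commute a b) : w p (a * b) ≤ max (w p a) (w p b) := by
  have h1 := h.orderOf_mul_dvd_lcm
  have ha := (orderOf_pos a).ne'
  have hb := (orderOf_pos b).ne'
  have h2 := (Nat.factorization_le_iff_dvd (orderOf_pos _).ne' (Nat.lcm_ne_zero ha hb)).2 h1 p
  rw [Nat.factorization_lcm ha hb] at h2
  exact h2

theorem w_mul_lt {a b : Q} (h : Commute a b) (hlt : w p b < w p a) : w p (a * b) = w p a := by
  apply le_antisymm
  · have := w_mul_le (p := p) h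
    omega
  · by_contra hcon
    have h0 : Commute (a * b) b⁻¹ := by
      rw [Commute.inv_right_iff]
      exact h.mul_left (Commute.refl b)
    have h1 := w_mul_le (p := p) h0
    rw [mul_inv_cancel_right, w_inv] at h1
    omega

theorem w_pow (hp : p.Prime) (a : Q) : w p (a ^ p) = w p a - 1 := by
  rw [w, orderOf_pow, w]
  by_cases h : p ∣ orderOf a
  · rw [Nat.gcd_eq_right h, Nat.factorization_div h, Finsupp.tsub_apply, hp.factorization_self]
  · rw [Nat.Coprime.gcd_eq_one (((Nat.Prime.coprime_iff_not_dvd hp).2 h).symm), Nat.div_one,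
      Nat.factorization_eq_zero_of_not_dvd h]

end grp

section pt

variable {P Q : Type} [Group P] [Group Q] {A : Finset P} {f : P → Q}

/-- the product rule at a point -/
structure Pt (A : Finset P) (f : P → Q) : Prop where
  mul : ∀ l ∈ A, ∀ l' ∈ A, l * l' ∈ A → f (l * l') = f l * f l'
  ne : ∀ l ∈ A, l ≠ 1 → f l ≠ 1

theorem Pt.one (h : Pt A f) (h1 : (1 : P) ∈ A) : f 1 = 1 := by
  have h2 := h.mul 1 h1 1 h1 (by rwa [mul_one])
  rw [mul_one] at h2
  exact mul_eq_left.1 h2.symm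

theorem Pt.com (h : Pt A f) {l l' : P} (h1 : l ∈ A) (h2 : l' ∈ A) (h3 : l * l' ∈ A)
    (h4 : l * l' = l' * l) : Commute (f l) (f l') := by
  show f l * f l' = f l' * f l
  rw [← h.mul _ h1 _ h2 h3, ← h.mul _ h2 _ h1 (h4 ▸ h3), h4]

variable [Finite Q] {p : ℕ}

theorem Pt.le (h : Pt A f) {l l' : P} (h1 : l ∈ A) (h2 : l' ∈ A) (h3 : l * l' ∈ A)
    (h4 : l * l' = l' * l) : w p (f (l * l')) ≤ max (w p (f l)) (w p (f l')) := by
  rw [h.mul _ h1 _ h2 h3]
  exact w_mul_le (h.com h1 h2 h3 h4)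

theorem Pt.eq (h : Pt A f) {l l' : P} (h1 : l ∈ A) (h2 : l' ∈ A) (h3 : l * l' ∈ A)
    (h4 : l * l' = l' * l) (h5 : w p (f l') < w p (f l)) : w p (f (l * l')) = w p (f l) := by
  rw [h.mul _ h1 _ h2 h3]
  exact w_mul_lt (h.com h1 h2 h3 h4) h5

theorem Pt.eq' (h : Pt A f) {l l' : P} (h1 : l ∈ A) (h2 : l' ∈ A) (h3 : l * l' ∈ A)
    (h4 : l * l' = l' * l) (h5 : w p (f l) < w p (f l')) : w p (f (l * l')) = w p (f l') := by
  rw [h4]
  exact h.eq h2 h1 (h4 ▸ h3) h4.symm h5

theorem Pt.pow' (h : Pt A f) (hp : p.Prime) {l : P} (hl : ∀ i ≤ p, l ^ i ∈ A) :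
    ∀ i ≤ p, f (l ^ i) = f l ^ i := by
  intro i
  induction i with
  | zero =>
    intro _
    rw [pow_zero, pow_zero]
    have := hl 0 (Nat.zero_le _)
    rw [pow_zero] at this
    exact h.one this
  | succ i ih =>
    intro hi
    have h1 := hl 1 hp.one_lt.le
    rw [pow_one] at h1
    rw [pow_succ, h.mul _ (hl i (by omega)) _ h1 (by rw [← pow_succ]; exact hl _ hi),
      ih (by omega), pow_succ]

theorem Pt.pow (h : Pt A f) (hp : p.Prime) {l : P} (hl : ∀ i ≤ p, l ^ i ∈ A) :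
    w p (f (l ^ p)) = w p (f l) - 1 := by
  rw [h.pow' hp hl p le_rfl, w_pow hp]

theorem Pt.inv (h : Pt A f) {l : P} (h0 : (1 : P) ∈ A) (h1 : l ∈ A) (h2 : l⁻¹ ∈ A) :
    w p (f l⁻¹) = w p (f l) := by
  have h3 := h.mul l h1 l⁻¹ h2 (by rwa [mul_inv_cancel])
  rw [mul_inv_cancel, h.one h0] at h3
  rw [← inv_eq_of_mul_eq_one_right h3.symm, w_inv]

theorem Pt.cc (h : Pt A f) (hp : p.Prime) {c : ℕ → P} {M : ℕ} (h0 : (1 : P) ∈ A)
    (hc : ∀ k ≤ M, ∀ i ≤ p, c k ^ i ∈ A) (c0 : c 0 = 1) (c1 : c 1 ≠ 1)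
    (cp : ∀ k, c (k + 1) ^ p = c k) : ∀ k ≤ M, w p (f (c k)) = k := by
  have hcA : ∀ k ≤ M, c k ∈ A := by
    intro k hk
    have := hc k hk 1 hp.one_lt.le
    rwa [pow_one] at this
  intro k
  induction k with
  | zero =>
    intro _
    rw [c0, h.one h0, w_one]
  | succ k ih =>
    intro hk
    have h1 := h.pow hp (hc (k + 1) hk)
    rw [cp, ih (by omega)] at h1
    rcases Nat.eq_zero_or_pos k with rfl | hk0
    · -- order `p`
      have h2 : f (c 1) ^ p = 1 := by
        rw [← h.pow' hp (hc 1 hk) p le_rfl, cp 0, c0, h.one h0]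
      have h3 : f (c 1) ≠ 1 := h.ne _ (hcA 1 hk) c1
      have : Fact p.Prime := ⟨hp⟩
      have h4 : orderOf (f (c 1)) = p := orderOf_eq_prime h2 h3
      show w p (f (c 1)) = 1
      rw [w, h4, hp.factorization_self]
    · omega

end pt

/-- **Theorem B from Theorem A.** -/
theorem b_from_a : BFromA := by
  intro hA P _ N hN hT p hp e₁ e₂ c y₁ y₂ a g he1 he2 hc c0 c1 cp hy1 hy2 ha1 ha2 hg1 hg2 hsof
  classical
  obtain ⟨M, hM⟩ : ∃ M : ℕ, M = 100 := ⟨_, rfl⟩
  -- the central elements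
  let Z : Subgroup P := N ⊓ Subgroup.centralizer (N : Set P)
  have hZ : ∀ l, l ∈ Z ↔ l ∈ N ∧ ∀ n ∈ N, n * l = l * n := fun l => by
    rw [Subgroup.mem_inf, Subgroup.mem_centralizer_iff]
    rfl
  have zz : ∀ l ∈ Z, ∀ l' ∈ Z, l * l' = l' * l := fun l hl l' hl' =>
    ((hZ l').1 hl').2 l ((hZ l).1 hl).1
  have ze1 : e₁ ∈ Z := (hZ _).2 he1
  have ze2 : e₂ ∈ Z := (hZ _).2 he2
  have zc : ∀ k, c k ∈ Z := fun k => (hZ _).2 (hc k)
  let A : Finset P := {1, e₁ * e₂, (e₁ * e₂)⁻¹} ∪ (range (p + 1)).image (fun j => e₁ ^ j) ∪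
    (range (p + 1)).image (fun j => e₂ ^ j) ∪
    (range (M + 1) ×ˢ range (p + 1)).image (fun z : ℕ × ℕ => c z.1 ^ z.2) ∪
    (range (M + 1)).image (fun k => e₁ * c k) ∪ (range (M + 1)).image (fun k => e₂ * c k)
  let B : Finset P := {a, g} ∪ (range (M + 1)).image y₁ ∪ (range (M + 1)).image y₂
  have AZ : ∀ l ∈ A, l ∈ Z := by
    intro l hl
    simp only [A, mem_union, mem_insert, mem_singleton, mem_image, mem_product, mem_range] at hl
    rcases hl with ((((((rfl | rfl | rfl) | ⟨j, -, rfl⟩) | ⟨j, -, rfl⟩) | ⟨z, -, rfl⟩) |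
      ⟨k, -, rfl⟩) | ⟨k, -, rfl⟩)
    · exact Z.one_mem
    · exact Z.mul_mem ze1 ze2
    · exact Z.inv_mem (Z.mul_mem ze1 ze2)
    · exact Z.pow_mem ze1 _
    · exact Z.pow_mem ze2 _
    · exact Z.pow_mem (zc _) _
    · exact Z.mul_mem ze1 (zc _)
    · exact Z.mul_mem ze2 (zc _)
  have A1 : (1 : P) ∈ A := by simp [A]
  have A12 : e₁ * e₂ ∈ A := by simp [A]
  have A12i : (e₁ * e₂)⁻¹ ∈ A := by simp [A]
  have Ae1 : ∀ i ≤ p, e₁ ^ i ∈ A := by
    intro i hi
    simp only [A, mem_union, mem_image, mem_range]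
    exact Or.inl (Or.inl (Or.inl (Or.inl (Or.inr ⟨i, by omega, rfl⟩))))
  have Ae2 : ∀ i ≤ p, e₂ ^ i ∈ A := by
    intro i hi
    simp only [A, mem_union, mem_image, mem_range]
    exact Or.inl (Or.inl (Or.inl (Or.inr ⟨i, by omega, rfl⟩)))
  have Ac : ∀ k ≤ M, ∀ i ≤ p, c k ^ i ∈ A := by
    intro k hk i hi
    simp only [A, mem_union, mem_image, mem_range, mem_product]
    exact Or.inl (Or.inl (Or.inr ⟨(k, i), ⟨by omega, by omega⟩, rfl⟩))
  have Ae1c : ∀ k ≤ M, e₁ * c k ∈ A := by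
    intro k hk
    simp only [A, mem_union, mem_image, mem_range]
    exact Or.inl (Or.inr ⟨k, by omega, rfl⟩)
  have Ae2c : ∀ k ≤ M, e₂ * c k ∈ A := by
    intro k hk
    simp only [A, mem_union, mem_image, mem_range]
    exact Or.inr ⟨k, by omega, rfl⟩
  have Ba : a ∈ B := by simp [B]
  have Bg : g ∈ B := by simp [B]
  have By1 : ∀ k ≤ M, y₁ k ∈ B := by
    intro k hk
    simp only [B, mem_union, mem_image, mem_range]
    exact Or.inl (Or.inr ⟨k, by omega, rfl⟩)
  have By2 : ∀ k ≤ M, y₂ k ∈ B := by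
    intro k hk
    simp only [B, mem_union, mem_image, mem_range]
    exact Or.inr ⟨k, by omega, rfl⟩
  have A1' : e₁ ∈ A := by have := Ae1 1 hp.one_lt.le; rwa [pow_one] at this
  have A2' : e₂ ∈ A := by have := Ae2 1 hp.one_lt.le; rwa [pow_one] at this
  have Ac' : ∀ k ≤ M, c k ∈ A := by
    intro k hk
    have := Ac k hk 1 hp.one_lt.le
    rwa [pow_one] at this
  -- Theorem A
  obtain ⟨β, hβ⟩ : ∃ β : ℝ, β = (B.card : ℝ) + 1 := ⟨_, rfl⟩
  have hBpos : 0 < β := by rw [hβ]; exact Nat.cast_add_one_pos _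
  obtain ⟨V, Q, _, _, _, _, σ, f, Bad, hBad, hgood⟩ := hA P N hN hsof hT A B
    (fun l hl => (hZ l).1 (AZ l hl)) (1 / (1000 * β)) (by positivity)
  -- the points all of whose neighbours are good
  let Bad' : V → Prop := fun x => Bad x ∨ ∃ s ∈ B, Bad (σ s x)
  have hBad' : ct Bad' ≤ (Fintype.card V : ℝ) / 1000 := by
    have h1 : ct Bad' ≤ ct Bad + ∑ s ∈ B, ct (fun x => Bad (σ s x)) := by
      refine (ct_le_add (q := Bad) (r := fun x => ∃ s ∈ B, Bad (σ s x)) fun x hx => hx).trans ?_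
      have := ct_le_sum B (p := fun x => ∃ s ∈ B, Bad (σ s x)) (fun s x => Bad (σ s x))
        fun x h => h
      linarith
    have h2 : ∑ s ∈ B, ct (fun x => Bad (σ s x)) = B.card * ct Bad := by
      rw [sum_congr rfl fun s _ => ct_perm Bad (σ s), sum_const, nsmul_eq_mul]
    rw [h2] at h1
    have h3 : β * ct Bad ≤ β * (1 / (1000 * β) * Fintype.card V) :=
      mul_le_mul_of_nonneg_left hBad hBpos.le
    have h4 : β * (1 / (1000 * β) * Fintype.card V) = (Fintype.card V : ℝ) / 1000 := by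
      field_simp
    rw [h4] at h3
    have h5 : β * ct Bad = ct Bad + B.card * ct Bad := by rw [hβ]; ring
    linarith
  have hpt : ∀ x, ¬ Bad x → Pt A (f x) := fun x hx =>
    ⟨(hgood x hx).1, (hgood x hx).2.1⟩
  have g0 : ∀ x, ¬ Bad' x → ¬ Bad x := fun x hx h => hx (Or.inl h)
  have g1 : ∀ x, ¬ Bad' x → ∀ s ∈ B, ¬ Bad (σ s x) := fun x hx s hs h => hx (Or.inr ⟨s, hs, h⟩)
  -- transport
  have htr : ∀ x, ¬ Bad' x → ∀ s ∈ B, ∀ l ∈ A, s * l * s⁻¹ ∈ A →
      w p (f (σ s x) (s * l * s⁻¹)) = w p (f x l) := by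
    intro x hx s hs l hl hsl
    rw [w, (hgood x (g0 x hx)).2.2 s hs l hl hsl, w]
  obtain ⟨n, hn⟩ : ∃ n : ℝ, n = Fintype.card V := ⟨_, rfl⟩
  have hnpos : 0 < n := by rw [hn]; exact_mod_cast Fintype.card_pos
  rw [← hn] at hBad'
  have hle : ∀ q : V → Prop, ct q ≤ n := by
    intro q
    rw [hn, ← ct_univ]
    exact ct_mono fun _ _ => trivial
  -- Step 1
  have step1 : ∀ (e : P) (y : ℕ → P), e ∈ A → e ∈ Z → (∀ k ≤ M, e * c k ∈ A) →
      (∀ k ≤ M, y k ∈ B) → (∀ k, y k * e * (y k)⁻¹ = e * c k) →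
      ct (fun x => w p (f x e) = 0) ≤ n / M + ct Bad' := by
    intro e y heA heZ hecA hyB hy
    have h1 : ∀ k ∈ Icc 1 M, ct (fun x => w p (f x e) = 0) ≤
        ct (fun x => w p (f x e) = k) + ct Bad' := by
      intro k hk
      rw [mem_Icc] at hk
      rw [← ct_perm (fun x => w p (f x e) = k) (σ (y k))]
      refine ct_le_add fun x hx => ?_
      by_cases hb : Bad' x
      · exact Or.inr hb
      · refine Or.inl ?_
        have t := htr x hb (y k) (hyB k hk.2) e heA (by rw [hy]; exact hecA k hk.2)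
        rw [hy, hx] at t
        have pt := hpt _ (g1 x hb (y k) (hyB k hk.2))
        have tc := pt.cc hp A1 Ac c0 c1 cp k hk.2
        have com := zz e heZ (c k) (zc k)
        rcases lt_trichotomy (w p (f (σ (y k) x) e)) (w p (f (σ (y k) x) (c k))) with h | h | h
        · have := pt.eq' heA (Ac' k hk.2) (hecA k hk.2) com h
          omega
        · rw [h, tc]
        · have := pt.eq heA (Ac' k hk.2) (hecA k hk.2) com h
          omega
    have h2 := sum_le_sum h1
    rw [sum_const, sum_add_distrib, sum_const, Nat.card_Icc, nsmul_eq_mul, nsmul_eq_mul,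
      Nat.add_sub_cancel] at h2
    have h3 : ∑ k ∈ Icc 1 M, ct (fun x => w p (f x e) = k) ≤ n := by
      have h4 : ct (fun x : V => w p (f x e) ∈ Icc 1 M) =
          ∑ k ∈ Icc 1 M, ct (fun x => w p (f x e) = k) := by
        unfold ct
        rw [← Nat.cast_sum]
        congr 1
        rw [card_eq_sum_card_fiberwise (f := fun x => w p (f x e)) (t := Icc 1 M)
          (fun x hx => by simpa using hx)]
        refine sum_congr rfl fun k hk => ?_
        rw [filter_filter]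
        congr 1
        ext x
        simp only [mem_filter, mem_univ, true_and]
        constructor
        · exact fun h => h.2
        · exact fun h => ⟨by rw [h]; exact hk, h⟩
      rw [← h4]
      exact hle _
    have hMpos : (0 : ℝ) < M := by rw [hM]; norm_num
    rw [← sub_le_iff_le_add, le_div_iff₀ hMpos]
    linarith
  have s1 := step1 e₁ y₁ A1' ze1 Ae1c By1 hy1
  have s2 := step1 e₂ y₂ A2' ze2 Ae2c By2 hy2
  -- Step 2
  have com12 := zz e₁ ze1 e₂ ze2
  have hE12 : ct (fun x => w p (f x e₁) < w p (f x e₂)) ≤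
      ct (fun x => w p (f x e₂) < w p (f x e₁)) + ct Bad' := by
    rw [← ct_perm (fun x => w p (f x e₂) < w p (f x e₁)) (σ a)]
    refine ct_le_add fun x hx => ?_
    by_cases hb : Bad' x
    · exact Or.inr hb
    · refine Or.inl ?_
      have t1 := htr x hb a Ba e₁ A1' (by rw [ha1]; exact A2')
      have t2 := htr x hb a Ba e₂ A2' (by rw [ha2]; exact A12i)
      have pt := hpt _ (g1 x hb a Ba)
      rw [ha1] at t1
      rw [ha2, pt.inv A1 A12 A12i] at t2
      have h3 := pt.le (p := p) A1' A2' A12 com12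
      omega
  have hE21 : ct (fun x => w p (f x e₂) < w p (f x e₁)) ≤
      ct (fun x => w p (f x e₁) < w p (f x e₂)) + ct Bad' := by
    rw [← ct_perm (fun x => w p (f x e₂) < w p (f x e₁)) (σ a)]
    refine ct_le_add fun x hx => ?_
    by_cases hb : Bad' x
    · exact Or.inr hb
    · refine Or.inl ?_
      have t1 := htr x hb a Ba e₁ A1' (by rw [ha1]; exact A2')
      have t2 := htr x hb a Ba e₂ A2' (by rw [ha2]; exact A12i)
      have pt := hpt _ (g1 x hb a Ba)
      rw [ha1] at t1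
      rw [ha2, pt.inv A1 A12 A12i] at t2
      have h3 := pt.eq (p := p) A1' A2' A12 com12 hx
      omega
  have hE23 : ct (fun x => w p (f x e₂) < w p (f x e₁)) ≤
      ct (fun x => w p (f x (e₁ * e₂)) < w p (f x e₂)) + ct Bad' := by
    rw [← ct_perm (fun x => w p (f x (e₁ * e₂)) < w p (f x e₂)) (σ a)]
    refine ct_le_add fun x hx => ?_
    by_cases hb : Bad' x
    · exact Or.inr hb
    · refine Or.inl ?_
      have t1 := htr x hb a Ba e₁ A1' (by rw [ha1]; exact A2')
      have t2 := htr x hb a Ba e₂ A2' (by rw [ha2]; exact A12i)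
      have pt := hpt _ (g1 x hb a Ba)
      rw [ha1] at t1
      rw [ha2, pt.inv A1 A12 A12i] at t2
      omega
  have hdis : ct (fun x => w p (f x e₁) < w p (f x e₂)) +
      ct (fun x => w p (f x e₂) < w p (f x e₁)) +
      ct (fun x => w p (f x (e₁ * e₂)) < w p (f x e₂)) ≤ n + ct Bad' := by
    have h1 := ct_split (fun _ : V => True) (fun x => w p (f x e₁) < w p (f x e₂))
    have h2 := ct_split (fun x => True ∧ ¬ w p (f x e₁) < w p (f x e₂))
      (fun x => w p (f x e₂) < w p (f x e₁))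
    rw [ct_univ, ← hn] at h1
    have h3 : ct (fun x => w p (f x e₁) < w p (f x e₂)) ≤
        ct (fun x => True ∧ w p (f x e₁) < w p (f x e₂)) := ct_mono fun x hx => ⟨trivial, hx⟩
    have h4 : ct (fun x => w p (f x e₂) < w p (f x e₁)) ≤
        ct (fun x => (True ∧ ¬ w p (f x e₁) < w p (f x e₂)) ∧ w p (f x e₂) < w p (f x e₁)) :=
      ct_mono fun x hx => ⟨⟨trivial, by omega⟩, hx⟩
    have h5 : ct (fun x => w p (f x (e₁ * e₂)) < w p (f x e₂)) ≤
        ct (fun x => (True ∧ ¬ w p (f x e₁) < w p (f x e₂)) ∧ ¬ w p (f x e₂) < w p (f x e₁)) +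
          ct Bad' := by
      refine ct_le_add fun x hx => ?_
      by_cases hb : Bad' x
      · exact Or.inr hb
      · refine Or.inl ?_
        have pt := hpt _ (g0 x hb)
        refine ⟨⟨trivial, fun h => ?_⟩, fun h => ?_⟩
        · have := pt.eq' A1' A2' A12 com12 h
          omega
        · have := pt.eq A1' A2' A12 com12 h
          omega
    linarith
  -- Step 3
  have hZc : ct (fun x => w p (f x e₁) = 0 ∨ w p (f x e₂) = 0) ≤
      ct (fun x => w p (f x e₁) = 0) + ct (fun x => w p (f x e₂) = 0) :=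
    ct_le_add fun x hx => hx
  have hmove : ∀ x, ¬ Bad' x → ¬ (w p (f x e₁) = 0 ∨ w p (f x e₂) = 0) →
      w p (f (σ g x) e₁) = w p (f x e₁) + 1 ∧ w p (f (σ g x) e₂) + 1 = w p (f x e₂) := by
    intro x hb hz
    push Not at hz
    have pt := hpt _ (g1 x hb g Bg)
    have pt0 := hpt _ (g0 x hb)
    have t1 := htr x hb g Bg e₁ A1' (by rw [hg1]; exact Ae1 p le_rfl)
    have t2 := htr x hb g Bg (e₂ ^ p) (Ae2 p le_rfl) (by rw [hg2]; exact A2')
    rw [hg1, pt.pow hp Ae1] at t1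
    rw [hg2, pt0.pow hp Ae2] at t2
    have z1 := hz.1
    have z2 := hz.2
    omega
  have hge : ct (fun x => w p (f x e₂) ≤ w p (f x e₁)) ≤
      ct (fun x => w p (f x e₂) < w p (f x e₁)) +
        ct (fun x => w p (f x e₁) = 0 ∨ w p (f x e₂) = 0) + ct Bad' := by
    rw [← ct_perm (fun x => w p (f x e₂) < w p (f x e₁)) (σ g), add_assoc]
    refine (ct_le_add (q := fun x => w p (f (σ g x) e₂) < w p (f (σ g x) e₁))
      (r := fun x => (w p (f x e₁) = 0 ∨ w p (f x e₂) = 0) ∨ Bad' x) fun x hx => ?_).trans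
      (add_le_add le_rfl (ct_le_add fun x hx => hx))
    by_cases hb : Bad' x
    · exact Or.inr (Or.inr hb)
    by_cases hz : w p (f x e₁) = 0 ∨ w p (f x e₂) = 0
    · exact Or.inr (Or.inl hz)
    refine Or.inl ?_
    have := hmove x hb hz
    omega
  have hlt : ct (fun x => w p (f x e₁) ≤ w p (f x e₂)) ≤
      ct (fun x => w p (f x e₁) < w p (f x e₂)) +
        ct (fun x => w p (f x e₁) = 0 ∨ w p (f x e₂) = 0) + ct Bad' := by
    rw [← ct_perm (fun x => w p (f x e₁) ≤ w p (f x e₂)) (σ g), add_assoc]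
    refine (ct_le_add (q := fun x => w p (f x e₁) < w p (f x e₂))
      (r := fun x => (w p (f x e₁) = 0 ∨ w p (f x e₂) = 0) ∨ Bad' x) fun x hx => ?_).trans
      (add_le_add le_rfl (ct_le_add fun x hx => hx))
    by_cases hb : Bad' x
    · exact Or.inr (Or.inr hb)
    by_cases hz : w p (f x e₁) = 0 ∨ w p (f x e₂) = 0
    · exact Or.inr (Or.inl hz)
    refine Or.inl ?_
    have := hmove x hb hz
    omega
  have hall : n ≤ ct (fun x => w p (f x e₂) ≤ w p (f x e₁)) +
      ct (fun x => w p (f x e₁) ≤ w p (f x e₂)) := by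
    rw [hn, ← ct_univ]
    exact ct_le_add fun x _ => le_total _ _
  have hM' : (M : ℝ) = 100 := by rw [hM]; norm_num
  rw [hM'] at s1 s2
  linarith

end Pool.Agent.N769.KT
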